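import Pool.Agent.W787.PS.StmA

/-!
# Project PS: the quantisation theorem (assembly of the core induction)
-/

open MeasureTheory Set Metric Filter Topology

noncomputable section

namespace Pool.Agent.W787.PS

namespace CoreAux

lemma integ {Λ R L ε : ℝ} {ρ g w : ℂ → ℝ} (h : IsDatum Λ R L ε ρ g w) : Integrable ρ :=
  h.diff.continuous.integrable_of_hasCompactSupport h.supp

lemma ms_le_ms {ρ : ℂ → ℝ} (hi : Integrable ρ) (h0 : ∀ x, 0 ≤ ρ x) {a b : ℂ} {r s : ℝ}
    (h : ball a r ⊆ ball b s) : ms ρ a r ≤ ms ρ b s :=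
  setIntegral_mono_set hi.integrableOn (Filter.Eventually.of_forall h0)
    (LE.le.eventuallyLE h)

lemma ms_nonneg {ρ : ℂ → ℝ} (h0 : ∀ x, 0 ≤ ρ x) {a : ℂ} {r : ℝ} : 0 ≤ ms ρ a r :=
  setIntegral_nonneg measurableSet_ball (fun x _ => h0 x)

lemma ms_le_int {ρ : ℂ → ℝ} (hi : Integrable ρ) (h0 : ∀ x, 0 ≤ ρ x) {a : ℂ} {r : ℝ} :
    ms ρ a r ≤ ∫ x, ρ x :=
  setIntegral_le_integral hi (Filter.Eventually.of_forall h0)

/-- Bounded real sequences converge along an ultrafilter. -/
lemma exists_lim (𝒰 : Ultrafilter ℕ) (f : ℕ → ℝ) (A B : ℝ)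
    (h : ∀ᶠ n in (𝒰 : Filter ℕ), A ≤ f n ∧ f n ≤ B) :
    ∃ l : ℝ, Tendsto f 𝒰 (𝓝 l) := by
  have hc : IsCompact (Icc A B) := isCompact_Icc
  obtain ⟨l, -, hl⟩ := hc.ultrafilter_le_nhds (𝒰.map f) (by
    rw [Ultrafilter.coe_map]
    exact Filter.le_principal_iff.2 (Filter.mem_map.2 (by
      filter_upwards [h] with n hn
      exact hn)))
  exact ⟨l, hl⟩

lemma ball_sub {a b : ℂ} {r s : ℝ} (h : ‖a - b‖ + r ≤ s) : ball a r ⊆ ball b s := by
  apply ball_subset_ball'
  rw [dist_eq_norm]; linarith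

end CoreAux

open CoreAux

theorem core (h1 : S_MONO) (h2 : S_SCAL) (h3 : S_SCM) (h4 : S_NK2) (h5 : S_NSA) (h6 : S_SEL)
    (h7 : S_LQA) (h8 : S_LQB) : S_CORE := by
  obtain ⟨-, h3b, -⟩ := h3
  intro 𝒰 Λ
  have hpi : (3.14 : ℝ) < Real.pi := Real.pi_gt_d2
  have hpi0 : 0 < Real.pi := Real.pi_pos
  -- the induction
  suffices H : ∀ (j : ℕ) (R L : ℝ) (ρ g w : ℕ → ℂ → ℝ), 0 < R → 0 ≤ L →
      0 ≤ Λ → IsSeq 𝒰 Λ R L ρ g w → ∀ m : ℝ, 0 < m → m ≤ 3 * j →
      (∀ r, 0 < r → r < R → Tendsto (fun n => ms (ρ n) 0 r) 𝒰 (𝓝 m)) →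
      ∃ k : ℕ, m = 8 * Real.pi * k by
    intro R L ρ g w hR hL hΛ hseq m hm hlim
    obtain ⟨j, hj⟩ := exists_nat_ge (m / 3)
    exact H j R L ρ g w hR hL hΛ hseq m hm (by linarith) hlim
  intro j
  induction j with
  | zero =>
    intro R L ρ g w hR hL hΛ hseq m hm hmj
    exfalso
    simp at hmj
    linarith
  | succ j ih =>
    intro R L ρ g w hR hL hΛ hseq m hm hmj hlim
    -- Data with eps = 1
    have hd1 := hseq 1 one_pos
    -- m is at least 4 pi
    have hm4 : 4 * Real.pi ≤ m := by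
      by_contra hcon
      push Not at hcon
      have hβ : ∀ᶠ n in (𝒰 : Filter ℕ), ms (ρ n) 0 (R / 2) ≤ (m + 4 * Real.pi) / 2 := by
        have := (hlim (R / 2) (by positivity) (by linarith)).eventually_lt_const
          (show m < (m + 4 * Real.pi) / 2 by linarith)
        filter_upwards [this] with n hn using hn.le
      obtain ⟨s, hs, hsev⟩ := h5 𝒰 Λ R L ρ g w hR hL hΛ hseq 0 (R / 2) ((m + 4 * Real.pi) / 2)
        (by positivity) (by simp; linarith) (by linarith) hβ (m / 2) (by positivity)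
      have hs' : 0 < min s (R / 2) := lt_min hs (by positivity)
      have ht := hlim (min s (R / 2)) hs' (lt_of_le_of_lt (min_le_right _ _) (by linarith))
      have hle : ∀ᶠ n in (𝒰 : Filter ℕ), ms (ρ n) 0 (min s (R / 2)) ≤ m / 2 := by
        filter_upwards [hsev, hd1] with n hn hdn
        exact (ms_le_ms (integ hdn) hdn.nonneg (ball_subset_ball (min_le_left _ _))).trans hn
      have := le_of_tendsto ht hle
      linarith
    -- selection of the scale
    obtain ⟨x, r, hr0, hx, hr, hsel1, hsel2⟩ := h6 𝒰 R ρ hR (by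
      filter_upwards [hd1] with n hn using ⟨hn.diff.continuous, hn.supp, hn.nonneg⟩) m (m - 3)
      (by linarith) (by linarith) hlim
    have hxn : Tendsto (fun n => ‖x n‖) 𝒰 (𝓝 0) := by simpa using hx.norm
    -- eventual smallness
    have hsmall : ∀ K δ : ℝ, 0 < δ → ∀ᶠ n in (𝒰 : Filter ℕ), ‖x n‖ + r n * K ≤ δ := by
      intro K δ hδ
      have : Tendsto (fun n => ‖x n‖ + r n * K) 𝒰 (𝓝 (0 + 0 * K)) := hxn.add (hr.mul_const K)
      simp only [zero_mul, add_zero] at this
      filter_upwards [this.eventually_lt_const hδ] with n hn using hn.le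
    -- blow-up sequence
    set ρ' : ℕ → ℂ → ℝ := fun n => scρ (ρ n) (x n) (r n) with hρ'
    set g' : ℕ → ℂ → ℝ := fun n => scg (ρ n) (g n) (x n) (r n) with hg'
    set w' : ℕ → ℂ → ℝ := fun n => scw (w n) (x n) (r n) with hw'
    have hblow : IsBlow 𝒰 Λ ρ' g' w' := by
      intro R' L' ε' hR' hL' hε'
      filter_upwards [hseq ε' hε', hsmall R' R hR,
        (hr.mul_const L).eventually_lt_const (show 0 * L < L' by simpa using hL')] with n hn h1n h2n
      have hs := h2 Λ R L ε' (ρ n) (g n) (w n) hn (x n) (r n) R' (hr0 n) hR' h1n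
      refine h1 _ _ _ _ _ _ _ _ _ _ hs le_rfl ?_ le_rfl
      have : 0 ≤ r n * L := mul_nonneg (hr0 n).le hL
      exact pow_le_pow_left₀ this h2n.le 2
    have hdat' : ∀ᶠ n in (𝒰 : Filter ℕ), IsDatum Λ 1 1 1 (ρ' n) (g' n) (w' n) :=
      hblow 1 1 1 one_pos one_pos one_pos
    have hms' : ∀ n (y : ℂ) (t : ℝ), ms (ρ' n) y t = ms (ρ n) (x n + r n * y) (r n * t) := by
      intro n y t
      exact h3b (ρ n) (x n) y (r n) t (hr0 n)
    have hms0 : ∀ n (t : ℝ), ms (ρ' n) 0 t = ms (ρ n) (x n) (r n * t) := by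
      intro n t
      rw [hms']; simp
    -- inner mass
    have hin : ∀ᶠ n in (𝒰 : Filter ℕ), m - 3 ≤ ms (ρ' n) 0 1 := by
      filter_upwards [hsel1] with n hn
      rw [hms0, mul_one]; exact hn
    have hhalf : ∀ y : ℂ, ∀ᶠ n in (𝒰 : Filter ℕ), ms (ρ' n) y (1 / 2) < m - 3 := by
      intro y
      filter_upwards [hsel2, hsmall ‖y‖ (R / 2) (by positivity)] with n hn hn2
      rw [hms']
      have := hn (x n + r n * y) (by
        refine (norm_add_le _ _).trans ?_
        rw [norm_mul, Complex.norm_real, Real.norm_of_nonneg (hr0 n).le]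
        exact hn2)
      rw [show r n * (1 / 2) = r n / 2 by ring]
      exact this
    -- limits of masses
    have hex : ∀ s : ℝ, ∃ l : ℝ, Tendsto (fun n => ms (ρ' n) 0 s) 𝒰 (𝓝 l) := by
      intro s
      apply exists_lim 𝒰 _ 0 Λ
      filter_upwards [hdat'] with n hn
      exact ⟨ms_nonneg hn.nonneg, (ms_le_int (integ hn) hn.nonneg).trans hn.mass⟩
    choose m' hm' using hex
    have hmono : Monotone m' := by
      intro s t hst
      refine le_of_tendsto_of_tendsto (hm' s) (hm' t) ?_
      filter_upwards [hdat'] with n hn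
      exact ms_le_ms (integ hn) hn.nonneg (ball_subset_ball hst)
    have hm'le : ∀ s, m' s ≤ m := by
      intro s
      refine le_of_tendsto_of_tendsto (hm' s) (hlim (R / 2) (by positivity) (by linarith)) ?_
      filter_upwards [hd1, hsmall s (R / 2) (by positivity)] with n hn hn2
      rw [hms0]
      exact ms_le_ms (integ hn) hn.nonneg (ball_sub (by simpa using hn2))
    have hbdd : BddAbove (range m') := ⟨m, by rintro _ ⟨s, rfl⟩; exact hm'le s⟩
    set M : ℝ := ⨆ s, m' s with hM
    have hMt : Tendsto m' atTop (𝓝 M) := tendsto_atTop_ciSup hmono hbdd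
    have hMm : M ≤ m := ciSup_le hm'le
    have hm1 : m - 3 ≤ m' 1 := ge_of_tendsto (hm' 1) hin
    have hM3 : m - 3 ≤ M := hm1.trans (le_ciSup hbdd 1)
    have hM0 : 0 < M := by linarith
    -- quantisation of M
    have hquant : ∃ k : ℕ, M = 8 * Real.pi * k := by
      by_cases hcase : ∀ y : ℂ, ∃ r : ℝ, 0 < r ∧
          ∀ᶠ n in (𝒰 : Filter ℕ), ms (ρ' n) y r ≤ Real.pi
      · refine ⟨1, ?_⟩
        have := h7 𝒰 Λ ρ' g' w' hΛ hblow hcase m' M (fun s _ => hm' s) hMt hM0
        rw [this]; simp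
      · push Not at hcase
        obtain ⟨y₀, hy₀⟩ := hcase
        refine h8 𝒰 Λ ρ' g' w' hΛ hblow ⟨y₀, ?_⟩ ?_ m' M (fun s _ => hm' s) hMt hM0
        · intro r hrr
          have := hy₀ r hrr
          simpa using this
        · intro y b r₀ hb hr₀ hby
          have hbm : b ≤ m - 3 := by
            have ht := hby (min (r₀ / 2) (1 / 2)) (lt_min (by positivity) (by norm_num))
              (lt_of_le_of_lt (min_le_left _ _) (by linarith))
            refine le_of_tendsto ht ?_
            filter_upwards [hhalf y, hdat'] with n hn hdn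
            exact (ms_le_ms (integ hdn) hdn.nonneg
              (ball_subset_ball (min_le_right _ _))).trans hn.le
          have hseq' : IsSeq 𝒰 Λ r₀ 1 (fun n => scρ (ρ' n) y 1)
              (fun n => scg (ρ' n) (g' n) y 1) (fun n => scw (w' n) y 1) := by
            intro ε hε
            filter_upwards [hblow (‖y‖ + 1 * r₀) 1 ε
              (by have := norm_nonneg y; linarith) one_pos hε] with n hn
            have := h2 _ _ _ _ _ _ _ hn y 1 r₀ one_pos hr₀ le_rfl
            simpa using this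
          refine ih r₀ 1 _ _ _ hr₀ zero_le_one hΛ hseq' b hb ?_ ?_
          · push_cast at hmj
            linarith
          · intro r hr1 hr2
            have := hby r hr1 hr2
            refine this.congr ?_
            intro n
            rw [h3b (ρ' n) y 0 1 r one_pos]
            simp
    obtain ⟨k, hk⟩ := hquant
    have hk1 : 1 ≤ k := by
      rcases Nat.eq_zero_or_pos k with h | h
      · exfalso
        rw [h] at hk
        simp at hk
        linarith
      · exact h
    have hM8 : 8 * Real.pi ≤ M := by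
      rw [hk]
      have : (1 : ℝ) ≤ k := by exact_mod_cast hk1
      nlinarith
    -- neck lemma
    obtain ⟨ε, C, hε, hC, hneck⟩ := h4 Λ (R * L) Real.pi hΛ (by positivity) hpi0
    have hKev : ∀ᶠ K : ℝ in atTop, m - m' K ≤ C * (m' (3 * K) - m' (K / 2)) := by
      have e1 : ∀ᶠ K : ℝ in atTop, 7 * Real.pi < m' (K / 2) := by
        have : Tendsto (fun K : ℝ => m' (K / 2)) atTop (𝓝 M) :=
          hMt.comp (tendsto_id.atTop_div_const (by norm_num))
        exact this.eventually_const_lt (by linarith)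
      filter_upwards [e1, eventually_ge_atTop (2 : ℝ)] with K hK7 hK2
      have hK0 : 0 < K := by linarith
      -- lower bound for the left side
      have hL1 : Tendsto (fun n => ms (ρ n) 0 (R / 32) - ms (ρ' n) 0 K) 𝒰 (𝓝 (m - m' K)) :=
        (hlim (R / 32) (by positivity) (by linarith)).sub (hm' K)
      have hL2 : Tendsto (fun n => C * (ms (ρ' n) 0 (3 * K) - ms (ρ' n) 0 (K / 2))) 𝒰
          (𝓝 (C * (m' (3 * K) - m' (K / 2)))) :=
        ((hm' (3 * K)).sub (hm' (K / 2))).const_mul C
      refine le_of_tendsto_of_tendsto hL1 hL2 ?_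
      have ev8 : ∀ᶠ n in (𝒰 : Filter ℕ), r n * K < R / 16 := by
        have : Tendsto (fun n => r n * K) 𝒰 (𝓝 (0 * K)) := hr.mul_const K
        exact this.eventually_lt_const (by simp; positivity)
      have ev5 : ∀ᶠ n in (𝒰 : Filter ℕ), 5 * Real.pi < ms (ρ' n) 0 (K / 2) :=
        (hm' (K / 2)).eventually_const_lt (by linarith)
      have evm : ∀ᶠ n in (𝒰 : Filter ℕ), ms (ρ n) 0 (3 * R / 4) < m + 0.05 :=
        (hlim (3 * R / 4) (by positivity) (by linarith)).eventually_lt_const (by norm_num)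
      have evx : ∀ᶠ n in (𝒰 : Filter ℕ), ‖x n‖ < R / 32 :=
        hxn.eventually_lt_const (by positivity)
      filter_upwards [hseq ε hε, ev8, ev5, evm, evx, hdat', hin] with n hdn h8n h5n hmn hxn' hdn' hinn
      have hrn := hr0 n
      set s : ℝ := K * r n with hs
      have hs0 : 0 < s := mul_pos hK0 hrn
      set Rn : ℝ := R / (2 * s) with hRn
      have hRn0 : 0 < Rn := by positivity
      have hsRn : s * Rn = R / 2 := by rw [hRn]; field_simp
      have hdat2 := h2 Λ R L ε (ρ n) (g n) (w n) hdn (x n) s Rn hs0 hRn0 (by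
        rw [hsRn]; linarith)
      have hmsS : ∀ t : ℝ, ms (scρ (ρ n) (x n) s) 0 t = ms (ρ n) (x n) (s * t) := by
        intro t
        rw [h3b (ρ n) (x n) 0 s t hs0]
        simp
      have hcv : ∀ t : ℝ, ms (ρ n) (x n) (s * t) = ms (ρ' n) 0 (K * t) := by
        intro t
        rw [hms0, hs]
        congr 1; ring
      have hRn8 : 8 ≤ Rn := by
        rw [hRn, le_div_iff₀ (by positivity)]
        nlinarith
      have hneck1 := hneck Rn (s * L) _ _ _ (by positivity) (by
        have : Rn * (s * L) = R / 2 * L := by rw [← hsRn]; ring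
        rw [this]
        nlinarith [mul_nonneg hR.le hL]) hRn8 hdat2 (by
          rw [hmsS, hcv]
          rw [show K * (1 / 2) = K / 2 by ring]
          linarith) (by
          have hi2 := integ hdat2
          rw [setIntegral_sdiff measurableSet_ball hi2.integrableOn
            (ball_subset_ball (by linarith : (1 / 2 : ℝ) ≤ Rn))]
          have e1 : ∫ z in ball (0 : ℂ) Rn, scρ (ρ n) (x n) s z = ms (ρ n) (x n) (R / 2) := by
            rw [← hsRn]; exact hmsS Rn
          have e2 : ∫ z in ball (0 : ℂ) (1 / 2), scρ (ρ n) (x n) s z = ms (ρ' n) 0 (K / 2) := by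
            rw [show K / 2 = K * (1 / 2) by ring, ← hcv]; exact hmsS (1 / 2)
          rw [e1, e2]
          have e3 : ms (ρ n) (x n) (R / 2) ≤ ms (ρ n) 0 (3 * R / 4) :=
            ms_le_ms (integ hdn) hdn.nonneg (ball_sub (by simp only [sub_zero]; linarith))
          have e4 : ms (ρ' n) 0 1 ≤ ms (ρ' n) 0 (K / 2) :=
            ms_le_ms (integ hdn') hdn'.nonneg (ball_subset_ball (by linarith))
          linarith)
      rw [hmsS, hmsS, hmsS, hmsS, hcv 1, hcv 3, hcv (1 / 2), mul_one,
        show K * 3 = 3 * K by ring, show K * (1 / 2) = K / 2 by ring,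
        show s * (Rn / 8) = R / 16 by rw [← mul_div_assoc, hsRn]; ring] at hneck1
      have e5 : ms (ρ n) 0 (R / 32) ≤ ms (ρ n) (x n) (R / 16) :=
        ms_le_ms (integ hdn) hdn.nonneg (ball_sub (by
          rw [zero_sub, norm_neg]; linarith))
      linarith
    have hfin : m - M ≤ C * (M - M) := by
      refine le_of_tendsto_of_tendsto (hMt.const_sub m) ?_ hKev
      refine Tendsto.const_mul C (Tendsto.sub ?_ ?_)
      · exact hMt.comp (tendsto_id.const_mul_atTop (by norm_num))
      · exact hMt.comp (tendsto_id.atTop_div_const (by norm_num))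
    refine ⟨k, ?_⟩
    rw [← hk]
    linarith [hfin, hMm, mul_zero C, sub_self M, show C * (M - M) = 0 by ring]

end Pool.Agent.W787.PS
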